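import Pool.Agent.V5helper74.RM.Bz

/-!
# The height of the numbers with a positive proportion of conjugates of bounded degree over `ℚ_p`
-/

set_option autoImplicit false

namespace Pool.Agent.V5helper74.RM

open Polynomial IntermediateField
open Pool.Agent.W237.RK
open Pool.Agent.H58P (Qb ht)

/-- counting automorphisms -/
theorem card_share (M : Type) [Field M] [NumberField M] (Ω : Type) [Field Ω] [CharZero Ω] (φ : M →+* Ω)
    (T : Finset (M ≃ₐ[ℚ] M)) (hT : Module.finrank ℚ M = T.card) (x : M) (Z : Finset Ω)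
    (hZ : ∀ z ∈ Z, z ∈ (minpoly ℚ x).rootSet Ω) (r : ℕ) (h : (minpoly ℚ x).natDegree ≤ r * Z.card) :
    ∃ T' ⊆ T, Module.finrank ℚ M ≤ r * T'.card ∧ ∀ τ ∈ T', φ (τ x) ∈ Z := by
  classical
  have hcard : Fintype.card (M ≃ₐ[ℚ] M) ≤ T.card := by
    rw [← hT]
    exact AlgEquiv.card_le
  have hTu : T = Finset.univ := (Finset.card_eq_iff_eq_univ T).1
    (le_antisymm (Finset.card_le_univ T) hcard)
  have hfc : Fintype.card (M ≃ₐ[ℚ] M) = Module.finrank ℚ M := by
    rw [hT, hTu, Finset.card_univ]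
  have hgal : IsGalois ℚ M := IsGalois.of_card_aut_eq_finrank ℚ M (by
    rw [← hfc, Nat.card_eq_fintype_card])
  have hnorm : Normal ℚ M := hgal.to_normal
  have hint : IsIntegral ℚ x := Algebra.IsIntegral.isIntegral x
  set s := (Finset.univ.filter fun τ : M ≃ₐ[ℚ] M => τ x = x).card with hs
  have hfib : ∀ τ₀ : M ≃ₐ[ℚ] M, (Finset.univ.filter fun τ : M ≃ₐ[ℚ] M => τ x = τ₀ x).card = s := by
    intro τ₀
    rw [hs]
    refine Finset.card_bij' (fun τ _ => τ₀⁻¹ * τ) (fun τ _ => τ₀ * τ) ?_ ?_ ?_ ?_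
    · intro τ hτ
      rw [Finset.mem_filter] at hτ ⊢
      refine ⟨Finset.mem_univ _, ?_⟩
      rw [AlgEquiv.mul_apply, hτ.2, ← AlgEquiv.mul_apply, inv_mul_cancel, AlgEquiv.one_apply]
    · intro τ hτ
      rw [Finset.mem_filter] at hτ ⊢
      refine ⟨Finset.mem_univ _, ?_⟩
      rw [AlgEquiv.mul_apply, hτ.2]
    · intro τ _
      show τ₀ * (τ₀⁻¹ * τ) = τ
      rw [mul_inv_cancel_left]
    · intro τ _
      show τ₀⁻¹ * (τ₀ * τ) = τ
      rw [inv_mul_cancel_left]
  -- the roots in `M`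
  have hsplit : ((minpoly ℚ x).map (algebraMap ℚ M)).Splits := hnorm.splits x
  have hne : minpoly ℚ x ≠ 0 := minpoly.ne_zero hint
  set W : Finset M := (rootSet_finite (minpoly ℚ x) M).toFinset with hW
  have hWcard : W.card ≤ (minpoly ℚ x).natDegree := by
    rw [hW, ← Set.ncard_eq_toFinset_card _ (rootSet_finite (minpoly ℚ x) M)]
    exact ncard_rootSet_le _ _
  have h1 : Module.finrank ℚ M ≤ W.card * s := by
    rw [← hfc, ← Finset.card_univ, Finset.card_eq_sum_card_fiberwise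
      (f := fun τ : M ≃ₐ[ℚ] M => τ x) (t := W) ?_]
    · rw [← smul_eq_mul, ← Finset.sum_const]
      refine Finset.sum_le_sum fun w _ => ?_
      by_cases hw : ∃ τ₀ : M ≃ₐ[ℚ] M, τ₀ x = w
      · obtain ⟨τ₀, rfl⟩ := hw
        exact (hfib τ₀).le
      · push Not at hw
        have h2 : (Finset.univ.filter fun τ : M ≃ₐ[ℚ] M => τ x = w) = ∅ :=
          Finset.filter_eq_empty_iff.2 fun τ _ => hw τ
        rw [h2, Finset.card_empty]
        exact Nat.zero_le _
    · intro τ _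
      rw [hW, Set.Finite.coe_toFinset, mem_rootSet]
      refine ⟨hne, ?_⟩
      show aeval (τ x) (minpoly ℚ x) = 0
      rw [aeval_algHom_apply, minpoly.aeval, map_zero]
  -- the automorphisms
  refine ⟨Finset.univ.filter fun τ : M ≃ₐ[ℚ] M => φ (τ x) ∈ Z, by rw [hTu]; exact Finset.subset_univ _, ?_,
    fun τ hτ => (Finset.mem_filter.1 hτ).2⟩
  have h2 : Z.card * s ≤ (Finset.univ.filter fun τ : M ≃ₐ[ℚ] M => φ (τ x) ∈ Z).card := by
    rw [Finset.card_eq_sum_card_fiberwise (s := Finset.univ.filter fun τ : M ≃ₐ[ℚ] M => φ (τ x) ∈ Z)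
      (f := fun τ : M ≃ₐ[ℚ] M => φ (τ x)) (t := Z) ?_]
    · rw [← smul_eq_mul, ← Finset.sum_const]
      refine Finset.sum_le_sum fun z hz => ?_
      have h3 := hZ z hz
      rw [← hsplit.image_rootSet φ.toRatAlgHom] at h3
      obtain ⟨y, hy, hyz⟩ := h3
      obtain ⟨τ₀, hτ₀⟩ := minpoly.exists_algEquiv_of_root' (K := ℚ) (L := M) (x := y) (y := x)
        (Algebra.IsAlgebraic.isAlgebraic x) (mem_rootSet.1 hy).2
      have hyz' : φ y = z := hyz
      rw [← hfib τ₀]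
      apply Finset.card_le_card
      intro τ hτ
      rw [Finset.mem_filter] at hτ
      have h4 : φ (τ x) = z := by rw [hτ.2, hτ₀, hyz']
      rw [Finset.mem_filter, Finset.mem_filter]
      exact ⟨⟨Finset.mem_univ _, by rw [h4]; exact hz⟩, h4⟩
    · intro τ hτ
      exact (Finset.mem_filter.1 hτ).2
  calc Module.finrank ℚ M ≤ W.card * s := h1
    _ ≤ (minpoly ℚ x).natDegree * s := Nat.mul_le_mul_right s hWcard
    _ ≤ (r * Z.card) * s := Nat.mul_le_mul_right s h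
    _ = r * (Z.card * s) := by ring
    _ ≤ _ := Nat.mul_le_mul_left r h2

/-- **numbers with a positive proportion of conjugates of bounded degree over the `p`-adic numbers** -/
theorem ht_loc_share (p : ℕ) [Fact p.Prime] (d r : ℕ) : ∃ c : ℝ, 0 < c ∧ ∀ x : Qb, x ≠ 0 →
    (minpoly ℚ x).natDegree ≤ r * {z ∈ (minpoly ℚ x).rootSet (PadicAlgCl p) |
      (minpoly ℚ_[p] z).natDegree ≤ d}.ncard → ¬ Tor x → c ≤ ht x := by
  classical
  have hp : p.Prime := Fact.out
  have hpR : (0 : ℝ) < p := by exact_mod_cast hp.pos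
  have hp1 : (1 : ℝ) < p := by exact_mod_cast hp.one_lt
  have hlogp : 0 < Real.log p := Real.log_pos hp1
  have hlog2 : 0 < Real.log 2 := Real.log_pos (by norm_num)
  obtain ⟨φ⟩ : Nonempty (Qb →+* PadicAlgCl p) := ⟨(IsAlgClosed.lift : Qb →ₐ[ℚ] PadicAlgCl p).toRingHom⟩
  set q := p ^ d.factorial with hq
  have hq1 : 1 < q := one_lt_pow₀ hp.one_lt (Nat.factorial_ne_zero d)
  obtain ⟨C, hC⟩ := Pool.Agent.W237.RK.pow p (p ^ d)
  obtain ⟨k, hk1, hk2⟩ : ∃ k : ℕ, (r : ℝ) * (1 + Real.log 2) < ((k : ℝ) - C) * Real.log p ∧ C ≤ k := by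
    obtain ⟨j, hj⟩ := exists_nat_gt ((r : ℝ) * (1 + Real.log 2) / Real.log p)
    refine ⟨j + C, ?_, by omega⟩
    rw [div_lt_iff₀ hlogp] at hj
    push_cast
    rw [add_sub_cancel_right]
    exact hj
  have hqR : (0 : ℝ) < q := by exact_mod_cast (by omega : 0 < q)
  refine ⟨1 / ((p : ℝ) ^ k * ((q : ℝ) + 1)), by positivity, ?_⟩
  intro x hx0 hshare hnt
  by_contra hcon
  push Not at hcon
  have hh0 : 0 < ht x := by
    refine lt_of_le_of_ne (Pool.Agent.H58R.ht_nonneg x) ?_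
    intro h
    exact hnt (Pool.Agent.W669.RK.tor_of_ht_zero x hx0 h.symm)
  have hbot : FiniteDimensional ℚ (⊥ : GF) := inferInstance
  obtain ⟨M, hMf, hMs, -, hsM, T₀, hT1, hT2⟩ :=
    Pool.Agent.W669.RK.exists_big ⊥ ⊥ hbot le_rfl {x}
  have hxM : x ∈ M := hsM x (Finset.mem_singleton_self x)
  have hbot1 : Module.finrank ℚ (⊥ : GF) = 1 := IntermediateField.finrank_bot
  rw [hbot1, one_mul] at hT1
  -- the automorphisms with bounded local degree
  set Zs : Set (PadicAlgCl p) := {z ∈ (minpoly ℚ x).rootSet (PadicAlgCl p) |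
      (minpoly ℚ_[p] z).natDegree ≤ d} with hZs
  have hZfin : Zs.Finite := (rootSet_finite (minpoly ℚ x) (PadicAlgCl p)).subset fun z hz => hz.1
  have hmin : minpoly ℚ (⟨x, hxM⟩ : M) = minpoly ℚ x :=
    (minpoly.algebraMap_eq (algebraMap M Qb).injective (⟨x, hxM⟩ : M)).symm
  have hnf : NumberField M := { to_charZero := inferInstance, to_finiteDimensional := hMf }
  obtain ⟨T, hTT, hTcard, hTd⟩ := card_share M (PadicAlgCl p) (φ.comp (algebraMap M Qb)) T₀ hT1
    (⟨x, hxM⟩ : M) hZfin.toFinset (fun z hz => by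
      rw [hmin]
      exact ((Set.Finite.mem_toFinset _).1 hz).1) r (by
      rw [hmin, ← Set.ncard_eq_toFinset_card _ hZfin]
      exact hshare)
  set u : Fin 1 → M := fun _ => ⟨(x ^ q) ^ (p ^ k), pow_mem (pow_mem hxM _) _⟩ with hu
  set v : Fin 1 → M := fun _ => ⟨x ^ (p ^ k), pow_mem hxM _⟩ with hv
  have hhu : ∀ s, ht (u s : Qb) = (p : ℝ) ^ k * ((q : ℝ) * ht x) := by
    intro s
    show ht ((x ^ q) ^ (p ^ k)) = _
    rw [Pool.Agent.H58B.ht_pow, Pool.Agent.H58B.ht_pow]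
    push_cast
    ring
  have hhv : ∀ s, ht (v s : Qb) = (p : ℝ) ^ k * ht x := by
    intro s
    show ht (x ^ (p ^ k)) = _
    rw [Pool.Agent.H58B.ht_pow]
    push_cast
    ring
  have huv : ∀ s, u s ≠ v s := by
    intro s hs
    have h1 : ht (u s : Qb) = ht (v s : Qb) := by rw [hs]
    rw [hhu s, hhv s] at h1
    have h2 : (q : ℝ) * ht x = ht x := mul_left_cancel₀ (by positivity) h1
    have h3 : (1 : ℝ) < (q : ℝ) := by exact_mod_cast hq1
    have h4 : ht x < (q : ℝ) * ht x := lt_mul_of_one_lt_left hh0 h3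
    linarith
  set δ : ℝ := (p : ℝ) ^ C / (p : ℝ) ^ k with hδ
  have hδ0 : 0 < δ := by positivity
  have hδ1 : δ ≤ 1 := by
    rw [hδ, div_le_one (by positivity)]
    exact pow_le_pow_right₀ hp1.le hk2
  have hmain := Pool.Agent.W237.RK.hht p φ M hMf hMs 1 u v huv T δ hδ0 hδ1 (by
    intro τ hτ
    obtain ⟨t, -, ht2⟩ := hT2 τ (hTT hτ)
    set ψ : Qb →+* PadicAlgCl p := φ.comp (t : Qb →+* Qb) with hψ
    have hloc : (minpoly ℚ_[p] (ψ x)).natDegree ≤ d := by
      have h1 := ((Set.Finite.mem_toFinset _).1 (hTd τ hτ)).2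
      have h2 : (φ.comp (algebraMap M Qb)) (τ (⟨x, hxM⟩ : M)) = ψ x := by
        show φ ((τ (⟨x, hxM⟩ : M) : M) : Qb) = φ (t x)
        rw [← ht2 (⟨x, hxM⟩ : M)]
      rw [h2] at h1
      exact h1
    have hclose := close_all p d (ψ x) hloc
    have hpow := (hC k).2 (ψ x ^ q) (ψ x) hclose
    rw [Fin.prod_univ_one, Fin.prod_univ_one]
    have e1 : φ ((τ (u 0) : M) : Qb) = (ψ x ^ q) ^ (p ^ k) := by
      rw [← ht2 (u 0)]
      show φ (t ((x ^ q) ^ (p ^ k))) = (φ (t x) ^ q) ^ (p ^ k)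
      rw [map_pow, map_pow, map_pow, map_pow]
    have e2 : φ ((τ (v 0) : M) : Qb) = ψ x ^ (p ^ k) := by
      rw [← ht2 (v 0)]
      show φ (t (x ^ (p ^ k))) = φ (t x) ^ (p ^ k)
      rw [map_pow, map_pow]
    rw [map_sub, e1, e2, norm_pow (ψ x ^ q), norm_pow (ψ x) (p ^ k),
      max_one_pow' _ (norm_nonneg _), max_one_pow' _ (norm_nonneg _), ← mul_pow, hδ,
      div_mul_eq_mul_div, le_div_iff₀ (by positivity)]
    exact hpow)
  have hlogδ : -Real.log δ = ((k : ℝ) - C) * Real.log p := by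
    rw [hδ, Real.log_div (by positivity) (by positivity), Real.log_pow, Real.log_pow]
    ring
  rw [hlogδ, Fin.sum_univ_one, hhu 0, hhv 0] at hmain
  have hM0 : 0 < Module.finrank ℚ M := Module.finrank_pos
  have hTpos : (0 : ℝ) < T.card := by
    have h1 : 0 < r * T.card := lt_of_lt_of_le hM0 hTcard
    have h2 : 0 < T.card := Nat.pos_of_mul_pos_left h1
    exact_mod_cast h2
  have hTR : (Module.finrank ℚ M : ℝ) ≤ T.card * r := by
    have h1 : Module.finrank ℚ M ≤ T.card * r := by rw [mul_comm]; exact hTcard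
    exact_mod_cast h1
  have h7 : (p : ℝ) ^ k * ((q : ℝ) * ht x) + (p : ℝ) ^ k * ht x ≤ 1 := by
    calc (p : ℝ) ^ k * ((q : ℝ) * ht x) + (p : ℝ) ^ k * ht x
        = (p : ℝ) ^ k * ((q : ℝ) + 1) * ht x := by ring
      _ ≤ (p : ℝ) ^ k * ((q : ℝ) + 1) * (1 / ((p : ℝ) ^ k * ((q : ℝ) + 1))) :=
          mul_le_mul_of_nonneg_left hcon.le (by positivity)
      _ = 1 := by rw [mul_one_div, div_self (by positivity)]
  have h8 : (T.card : ℝ) * (((k : ℝ) - C) * Real.log p) ≤ T.card * (r * (1 + Real.log 2)) := by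
    refine hmain.trans ?_
    calc (Module.finrank ℚ M : ℝ) * ((p : ℝ) ^ k * ((q : ℝ) * ht x) + (p : ℝ) ^ k * ht x + Real.log 2)
        ≤ (Module.finrank ℚ M : ℝ) * (1 + Real.log 2) :=
          mul_le_mul_of_nonneg_left (by linarith) (Nat.cast_nonneg _)
      _ ≤ (T.card * r) * (1 + Real.log 2) := mul_le_mul_of_nonneg_right hTR (by linarith)
      _ = _ := by ring
  have h5 := le_of_mul_le_mul_left h8 hTpos
  linarith

end Pool.Agent.V5helper74.RM
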