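import Pool.Agent.V5helper74.RM.Real

/-!
# The height of the numbers with a positive proportion of real conjugates
-/

set_option autoImplicit false

namespace Pool.Agent.V5helper74.RM

open NumberField Height Module Polynomial
open Pool.Agent.W237.RK
open Pool.Agent.H58P (Qb ht)

lemma real_ineq' (N : ℕ) (t : ℝ) :
    ((N : ℝ) + 1) * (|t| ^ (2 * N) * |t ^ 2 - 1|) ≤ (max |t| 1) ^ (4 * N + 2) := by
  have h0 := abs_nonneg t
  have hs : |t| ^ 2 = t ^ 2 := sq_abs t
  rw [pow_mul, hs]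
  set s := t ^ 2 with hsd
  have hs0 : 0 ≤ s := sq_nonneg t
  rcases le_total |t| 1 with h | h
  · rw [max_eq_right h, one_pow]
    have h1 : s ≤ 1 := by rw [← hs]; exact pow_le_one₀ h0 h
    rw [abs_of_nonpos (by linarith : s - 1 ≤ 0)]
    have h2 : ((N : ℝ) + 1) * s ^ N ≤ ∑ i ∈ Finset.range (N + 1), s ^ i := by
      have h3 : ∑ _i ∈ Finset.range (N + 1), s ^ N ≤ ∑ i ∈ Finset.range (N + 1), s ^ i := by
        refine Finset.sum_le_sum fun i hi => ?_
        exact pow_le_pow_of_le_one hs0 h1 (by rw [Finset.mem_range] at hi; omega)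
      rw [Finset.sum_const, Finset.card_range, nsmul_eq_mul] at h3
      push_cast at h3
      exact h3
    have h4 : (∑ i ∈ Finset.range (N + 1), s ^ i) * (1 - s) = 1 - s ^ (N + 1) := geom_sum_mul_neg s (N + 1)
    have h5 : 0 ≤ s ^ (N + 1) := pow_nonneg hs0 _
    have h6 : 0 ≤ 1 - s := by linarith
    nlinarith [mul_le_mul_of_nonneg_right h2 h6]
  · rw [max_eq_left h]
    have h1 : 1 ≤ s := by rw [← hs]; exact one_le_pow₀ h
    rw [abs_of_nonneg (by linarith : 0 ≤ s - 1)]
    have h2 : |t| ^ (4 * N + 2) = s ^ N * s ^ (N + 1) := by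
      rw [← hs]; ring
    rw [h2]
    have h3 : 1 + ((N + 1 : ℕ) : ℝ) * (s - 1) ≤ (1 + (s - 1)) ^ (N + 1) :=
      one_add_mul_le_pow (by linarith) (N + 1)
    push_cast at h3
    rw [add_sub_cancel] at h3
    have h4 : 0 ≤ s ^ N := pow_nonneg hs0 N
    nlinarith [mul_le_mul_of_nonneg_left (show ((N : ℝ) + 1) * (s - 1) ≤ s ^ (N + 1) by linarith) h4]

lemma cplx_ineq (N : ℕ) (z : ℂ) :
    (1 / 2 : ℝ) * (‖z‖ ^ (2 * N) * ‖z ^ 2 - 1‖) ≤ (max ‖z‖ 1) ^ (4 * N + 2) := by
  have h1 : (1 : ℝ) ≤ max ‖z‖ 1 := le_max_right _ _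
  have h2 : ‖z ^ 2 - 1‖ ≤ 2 * max ‖z‖ 1 ^ 2 := by
    refine (norm_sub_le _ _).trans ?_
    rw [norm_pow, norm_one]
    have h3 : ‖z‖ ^ 2 ≤ max ‖z‖ 1 ^ 2 := pow_le_pow_left₀ (norm_nonneg _) (le_max_left _ _) 2
    have h4 : (1 : ℝ) ≤ max ‖z‖ 1 ^ 2 := one_le_pow₀ h1
    linarith
  have h5 : ‖z‖ ^ (2 * N) ≤ max ‖z‖ 1 ^ (2 * N) :=
    pow_le_pow_left₀ (norm_nonneg _) (le_max_left _ _) _
  calc (1 / 2 : ℝ) * (‖z‖ ^ (2 * N) * ‖z ^ 2 - 1‖)
      ≤ 1 / 2 * (max ‖z‖ 1 ^ (2 * N) * (2 * max ‖z‖ 1 ^ 2)) := by gcongr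
    _ = max ‖z‖ 1 ^ (2 * N + 2) := by ring
    _ ≤ _ := pow_le_pow_right₀ h1 (by omega)

/-- the number of the real embeddings, counted by places -/
noncomputable def realWeight (L : Type) [Field L] [NumberField L] (x : L) : ℕ := by
  classical
  exact ∑ w : InfinitePlace L, if (w.embedding x).im = 0 then w.mult else 0

theorem share_bound (L : Type) [Field L] [NumberField L] (x : L) (hx0 : x ≠ 0) (h1 : x ^ 2 ≠ 1) (N : ℕ) :
    (2 * ((N : ℝ) + 1)) ^ realWeight L x ≤ 2 ^ finrank ℚ L * mulHeight₁ x ^ (4 * N + 2) := by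
  classical
  set P : L := x ^ (2 * N) * (x ^ 2 - 1) with hP
  have hP0 : P ≠ 0 := mul_ne_zero (pow_ne_zero _ hx0) (sub_ne_zero.2 h1)
  have hpf := prod_abs_eq_one hP0
  rw [NumberField.mulHeight₁_eq, mul_pow (∏ v : InfinitePlace L, max (v x) 1 ^ v.mult)]
  have hsm : (fun v : FinitePlace L => max (v x) 1).HasFiniteMulSupport := by
    refine Set.Finite.subset (FinitePlace.hasFiniteMulSupport hx0) ?_
    intro v hv
    rw [Function.mem_mulSupport] at hv ⊢
    intro h
    apply hv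
    show max (v x) 1 = 1
    have h2 : v x = 1 := h
    rw [h2, max_self]
  have hfin : (∏ᶠ v : FinitePlace L, v P) ≤ (∏ᶠ v : FinitePlace L, max (v x) 1) ^ (4 * N + 2) := by
    rw [finprod_pow hsm]
    refine finprod_le_finprod (FinitePlace.hasFiniteMulSupport hP0) (fun v => apply_nonneg v P) ?_ ?_
    · exact hsm.pow _
    · intro v
      show v P ≤ max (v x) 1 ^ (4 * N + 2)
      have hv1 : v (x ^ 2 - 1) ≤ max (v x) 1 ^ 2 := by
        rw [sub_eq_add_neg]
        refine (FinitePlace.add_le v _ _).trans ?_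
        rw [map_neg_eq_map, map_one, map_pow]
        refine max_le ?_ ?_
        · exact pow_le_pow_left₀ (apply_nonneg v x) (le_max_left _ _) 2
        · exact one_le_pow₀ (le_max_right _ _)
      have h2 : (1 : ℝ) ≤ max (v x) 1 := le_max_right _ _
      calc v P = v x ^ (2 * N) * v (x ^ 2 - 1) := by rw [hP, map_mul, map_pow]
        _ ≤ max (v x) 1 ^ (2 * N) * max (v x) 1 ^ 2 :=
          mul_le_mul (pow_le_pow_left₀ (apply_nonneg v x) (le_max_left _ _) _) hv1 (apply_nonneg v _)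
            (by positivity)
        _ = max (v x) 1 ^ (2 * N + 2) := by ring
        _ ≤ max (v x) 1 ^ (4 * N + 2) := pow_le_pow_right₀ h2 (by omega)
  set c : InfinitePlace L → ℝ := fun w => if (w.embedding x).im = 0 then (N : ℝ) + 1 else 1 / 2 with hc
  have hc0 : ∀ w, 0 ≤ c w := fun w => by rw [hc]; simp only; split_ifs <;> positivity
  have hinf : (∏ w : InfinitePlace L, c w ^ w.mult) * (∏ w : InfinitePlace L, w P ^ w.mult) ≤
      (∏ v : InfinitePlace L, max (v x) 1 ^ v.mult) ^ (4 * N + 2) := by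
    rw [← Finset.prod_mul_distrib, ← Finset.prod_pow]
    refine Finset.prod_le_prod (fun w _ => mul_nonneg (pow_nonneg (hc0 w) _)
      (pow_nonneg (apply_nonneg w P) _)) fun w _ => ?_
    rw [← mul_pow, ← pow_mul, mul_comm w.mult, pow_mul]
    refine pow_le_pow_left₀ (mul_nonneg (hc0 w) (apply_nonneg w P)) ?_ _
    have e2 : w P = ‖w.embedding x‖ ^ (2 * N) * ‖(w.embedding x) ^ 2 - 1‖ := by
      rw [← InfinitePlace.norm_embedding_eq w P, hP, map_mul, map_sub, map_pow, map_pow, map_one,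
        norm_mul, norm_pow]
    have e1 : w x = ‖w.embedding x‖ := (InfinitePlace.norm_embedding_eq w x).symm
    rw [e1, e2, hc]
    simp only
    split_ifs with hr
    · obtain ⟨r, hr'⟩ : ∃ r : ℝ, w.embedding x = (r : ℂ) := ⟨(w.embedding x).re, by
        apply Complex.ext
        · simp
        · simp [hr]⟩
      rw [hr', ← Complex.ofReal_pow, ← Complex.ofReal_one, ← Complex.ofReal_sub, Complex.norm_real,
        Complex.norm_real, Real.norm_eq_abs, Real.norm_eq_abs]
      exact real_ineq' N r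
    · exact cplx_ineq N _
  have hI0 : 0 ≤ ∏ w : InfinitePlace L, w P ^ w.mult :=
    Finset.prod_nonneg fun w _ => pow_nonneg (apply_nonneg w P) _
  have hF0 : 0 ≤ ∏ᶠ v : FinitePlace L, v P := finprod_nonneg fun v => apply_nonneg v P
  have hcp : (2 * ((N : ℝ) + 1)) ^ realWeight L x =
      2 ^ finrank ℚ L * ∏ w : InfinitePlace L, c w ^ w.mult := by
    rw [← InfinitePlace.sum_mult_eq, ← Finset.prod_pow_eq_pow_sum, ← Finset.prod_mul_distrib, realWeight,
      ← Finset.prod_pow_eq_pow_sum]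
    refine Finset.prod_congr rfl fun w _ => ?_
    rw [hc, ← mul_pow]
    simp only
    split_ifs
    · rfl
    · norm_num
  calc (2 * ((N : ℝ) + 1)) ^ realWeight L x
      = 2 ^ finrank ℚ L * (((∏ w : InfinitePlace L, c w ^ w.mult) *
        (∏ w : InfinitePlace L, w P ^ w.mult)) * ∏ᶠ v : FinitePlace L, v P) := by
        rw [hcp, mul_assoc (∏ w : InfinitePlace L, c w ^ w.mult), hpf, mul_one]
    _ ≤ _ := mul_le_mul_of_nonneg_left (mul_le_mul hinf hfin hF0 (by positivity)) (by positivity)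

/-- the real roots of the minimal polynomial are counted by the places -/
theorem card_real_le (L : Type) [Field L] [NumberField L] (x : L) :
    ((minpoly ℚ x).rootSet ℝ).ncard ≤ realWeight L x := by
  classical
  have hint : IsIntegral ℚ x := Algebra.IsIntegral.isIntegral x
  -- the real embeddings
  have hroot : ∀ y : ℝ, y ∈ (minpoly ℚ x).rootSet ℝ → ∃ φ : L →+* ℂ, φ x = (y : ℂ) := by
    intro y hy
    have h1 : aeval (y : ℂ) (minpoly ℚ x) = 0 := by
      have h2 := (mem_rootSet.1 hy).2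
      have h3 := congrArg (algebraMap ℝ ℂ) h2
      rw [map_zero] at h3
      rw [← h3, ← aeval_algebraMap_apply]
      rfl
    have h2 : (y : ℂ) ∈ (minpoly ℚ x).rootSet ℂ := mem_rootSet.2 ⟨minpoly.ne_zero hint, h1⟩
    rw [← Algebra.IsAlgebraic.range_eval_eq_rootSet_minpoly ℂ x] at h2
    obtain ⟨ψ, hψ⟩ := h2
    exact ⟨ψ.toRingHom, hψ⟩
  have hch : ∀ y : ℝ, ∃ φ : L →+* ℂ, y ∈ (minpoly ℚ x).rootSet ℝ → φ x = (y : ℂ) := by
    intro y
    by_cases hy : y ∈ (minpoly ℚ x).rootSet ℝ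
    · obtain ⟨φ, h⟩ := hroot y hy
      exact ⟨φ, fun _ => h⟩
    · exact ⟨Classical.arbitrary _, fun h => absurd h hy⟩
  choose φ hφ using hch
  set S : Finset (L →+* ℂ) := Finset.univ.filter fun ψ => (ψ x).im = 0 with hS
  have h1 : ((minpoly ℚ x).rootSet ℝ).ncard ≤ S.card := by
    rw [← Set.ncard_coe_finset]
    refine Set.ncard_le_ncard_of_injOn φ ?_ ?_ (Finset.finite_toSet S)
    · intro y hy
      rw [hS, Finset.coe_filter]
      exact ⟨Finset.mem_univ _, by rw [hφ y hy]; exact Complex.ofReal_im y⟩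
    · intro y hy y' hy' h
      have h2 : (y : ℂ) = (y' : ℂ) := by
        rw [← hφ y hy, ← hφ y' hy']
        exact congrArg (fun ψ : L →+* ℂ => ψ x) h
      exact_mod_cast h2
  refine h1.trans ?_
  rw [realWeight, Finset.card_eq_sum_card_fiberwise (f := InfinitePlace.mk) (t := Finset.univ)
    (fun _ _ => Finset.mem_coe.2 (Finset.mem_univ _))]
  refine Finset.sum_le_sum fun w _ => ?_
  have hmk : ∀ ψ : L →+* ℂ, InfinitePlace.mk ψ = w → ((ψ x).im = 0 ↔ (w.embedding x).im = 0) := by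
    intro ψ hψ
    have h2 : InfinitePlace.mk ψ = InfinitePlace.mk w.embedding := by rw [hψ, InfinitePlace.mk_embedding]
    rcases InfinitePlace.mk_eq_iff.1 h2 with h3 | h3
    · rw [h3]
    · rw [← h3, ComplexEmbedding.conjugate_coe_eq]
      simp
  split_ifs with hw
  · rw [← InfinitePlace.card_filter_mk_eq w]
    apply Finset.card_le_card
    intro ψ hψ
    rw [Finset.mem_filter] at hψ ⊢
    exact ⟨Finset.mem_univ _, hψ.2⟩
  · rw [Nat.le_zero, Finset.card_eq_zero, Finset.filter_eq_empty_iff]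
    intro ψ hψ hψw
    rw [hS, Finset.mem_filter] at hψ
    exact hw ((hmk ψ hψw).1 hψ.2)

/-- **numbers with a positive proportion of real conjugates** -/
theorem ht_real_share (r : ℕ) : ∃ c : ℝ, 0 < c ∧ ∀ x : Qb, x ≠ 0 → x ^ 2 ≠ 1 →
    (minpoly ℚ x).natDegree ≤ r * ((minpoly ℚ x).rootSet ℝ).ncard → c ≤ ht x := by
  have hlog2 : 0 < Real.log 2 := Real.log_pos one_lt_two
  set N := 2 ^ r - 1 with hN
  refine ⟨Real.log 2 / ((4 * N + 2) * (r + 1)), by positivity, ?_⟩
  intro x hx0 h1 hshare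
  have hint : IsIntegral ℚ x := Pool.Agent.H58P.qb_isIntegral x
  let L := IntermediateField.adjoin ℚ {x}
  have hfd : FiniteDimensional ℚ L := IntermediateField.adjoin.finiteDimensional hint
  have hnf : NumberField L := { to_charZero := inferInstance, to_finiteDimensional := hfd }
  let g : L := IntermediateField.AdjoinSimple.gen ℚ x
  have hg : algebraMap L Qb g = x := IntermediateField.AdjoinSimple.algebraMap_gen ℚ x
  have h2 := Pool.Agent.Helper259.AbsHt.absLogHeight_eq L (algebraMap L Qb) ![1, g]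
  have e : (fun i => (algebraMap L Qb) ((![1, g] : Fin 2 → L) i)) = ![1, x] := by
    funext i
    fin_cases i
    · simp
    · simpa using hg
  rw [e] at h2
  have hg0 : g ≠ 0 := by
    intro h
    apply hx0
    rw [← hg, h, map_zero]
  have hg1 : g ^ 2 ≠ 1 := by
    intro h
    apply h1
    rw [← hg, ← map_pow, h, map_one]
  have hmin : minpoly ℚ g = minpoly ℚ x := by
    conv_rhs => rw [← hg]
    exact (minpoly.algebraMap_eq (algebraMap L Qb).injective g).symm
  have hcard := card_real_le L g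
  rw [hmin] at hcard
  have hfr : finrank ℚ L = (minpoly ℚ x).natDegree := IntermediateField.adjoin.finrank hint
  have h3 := share_bound L g hg0 hg1 N
  have h4 : ht x = Real.log (mulHeight₁ g) / finrank ℚ L := by
    rw [ht, h2, ← logHeight₁_eq_log_mulHeight₁, logHeight₁_eq_logHeight, logHeight_swap]
  set n := finrank ℚ L with hn
  set a := realWeight L g with ha
  have hna : n ≤ r * a := by
    rw [hfr]
    exact hshare.trans (Nat.mul_le_mul_left r hcard)
  have hn0 : (0 : ℝ) < n := by exact_mod_cast (finrank_pos : 0 < finrank ℚ L)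
  have hN1 : (N : ℝ) + 1 = 2 ^ r := by
    have h5 : 1 ≤ 2 ^ r := Nat.one_le_two_pow
    have h6 : N + 1 = 2 ^ r := by omega
    exact_mod_cast h6
  rw [hN1] at h3
  have hH := mulHeight₁_pos g
  have h5 := Real.log_le_log (by positivity) h3
  rw [Real.log_mul (by positivity) (by positivity), Real.log_pow, Real.log_pow, Real.log_pow,
    Real.log_mul (by norm_num) (by positivity), Real.log_pow] at h5
  rw [h4]
  set l := Real.log (mulHeight₁ g) with hl
  push_cast at h5
  -- `a (1 + r) log 2 ≤ n log 2 + (4 N + 2) l`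
  have h6 : (n : ℝ) ≤ r * a := by exact_mod_cast hna
  have h7 : (a : ℝ) * Real.log 2 ≤ (4 * N + 2) * l := by nlinarith
  have h8 : (n : ℝ) * Real.log 2 ≤ (r + 1) * ((4 * N + 2) * l) := by
    have h9 : (0 : ℝ) ≤ (4 * N + 2) * l := by
      have : (0 : ℝ) ≤ (a : ℝ) * Real.log 2 := by positivity
      linarith
    calc (n : ℝ) * Real.log 2 ≤ (r * a) * Real.log 2 := by gcongr
      _ = r * (a * Real.log 2) := by ring
      _ ≤ r * ((4 * N + 2) * l) := by gcongr
      _ ≤ (r + 1) * ((4 * N + 2) * l) := by nlinarith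
  rw [div_le_div_iff₀ (by positivity) hn0]
  calc Real.log 2 * n = n * Real.log 2 := by ring
    _ ≤ _ := h8
    _ = _ := by ring

end Pool.Agent.V5helper74.RM
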