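import Pool.Agent.V5helper40.RRed.Smooth

/-!
# The height of totally real numbers
-/

set_option autoImplicit false

namespace Pool.Agent.V5helper74.RM

open NumberField Height Module
open Pool.Agent.W237.RK
open Pool.Agent.H58P (Qb ht)

lemma real_ineq (r : ℝ) : 2 * (|r| * |r ^ 2 - 1|) ≤ (max |r| 1) ^ 4 := by
  have h0 := abs_nonneg r
  rcases le_total |r| 1 with h | h
  · rw [max_eq_right h, one_pow]
    have h1 : r ^ 2 ≤ 1 := by rw [← sq_abs]; exact pow_le_one₀ (abs_nonneg _) h
    rw [abs_of_nonpos (by linarith : r ^ 2 - 1 ≤ 0), ← sq_abs]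
    set s := |r|
    nlinarith [sq_nonneg (2 * s - 1), mul_nonneg h0 (sq_nonneg (s - 1 / 2)), mul_nonneg h0 h0]
  · rw [max_eq_left h]
    have h1 : 1 ≤ r ^ 2 := by rw [← sq_abs]; exact one_le_pow₀ h
    rw [abs_of_nonneg (by linarith : 0 ≤ r ^ 2 - 1), ← sq_abs]
    set s := |r|
    have h2 : 0 ≤ s ^ 3 - 2 * s ^ 2 + 2 := by nlinarith [sq_nonneg (s - 1), mul_nonneg (by linarith : (0 : ℝ) ≤ s - 1) (sq_nonneg (s - 1))]
    nlinarith [mul_nonneg h0 h2]

theorem tr_bound (L : Type) [Field L] [NumberField L] (x : L) (hx0 : x ≠ 0) (h1 : x ^ 2 ≠ 1)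
    (hreal : ∀ φ : L →+* ℂ, (φ x).im = 0) : (2 : ℝ) ^ finrank ℚ L ≤ mulHeight₁ x ^ 4 := by
  set P : L := x * (x ^ 2 - 1) with hP
  have hP0 : P ≠ 0 := mul_ne_zero hx0 (sub_ne_zero.2 h1)
  have hpf := prod_abs_eq_one hP0
  rw [NumberField.mulHeight₁_eq, mul_pow]
  have hsm : (fun v : FinitePlace L => max (v x) 1).HasFiniteMulSupport := by
    refine Set.Finite.subset (FinitePlace.hasFiniteMulSupport hx0) ?_
    intro v hv
    rw [Function.mem_mulSupport] at hv ⊢
    intro h
    apply hv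
    show max (v x) 1 = 1
    have h2 : v x = 1 := h
    rw [h2, max_self]
  have hfin : (∏ᶠ v : FinitePlace L, v P) ≤ (∏ᶠ v : FinitePlace L, max (v x) 1) ^ 4 := by
    rw [finprod_pow hsm]
    refine finprod_le_finprod (FinitePlace.hasFiniteMulSupport hP0) (fun v => apply_nonneg v P) ?_ ?_
    · exact hsm.pow 4
    · intro v
      show v P ≤ max (v x) 1 ^ 4
      have hv1 : v (x ^ 2 - 1) ≤ max (v x) 1 ^ 2 := by
        rw [sub_eq_add_neg]
        refine (FinitePlace.add_le v _ _).trans ?_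
        rw [map_neg_eq_map, map_one, map_pow]
        refine max_le ?_ ?_
        · exact pow_le_pow_left₀ (apply_nonneg v x) (le_max_left _ _) 2
        · exact one_le_pow₀ (le_max_right _ _)
      have h2 : (1 : ℝ) ≤ max (v x) 1 := le_max_right _ _
      calc v P = v x * v (x ^ 2 - 1) := by rw [hP, map_mul]
        _ ≤ max (v x) 1 * max (v x) 1 ^ 2 :=
          mul_le_mul (le_max_left _ _) hv1 (apply_nonneg v _) (by positivity)
        _ = max (v x) 1 ^ 3 := by ring
        _ ≤ max (v x) 1 ^ 4 := pow_le_pow_right₀ h2 (by norm_num)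
  have hinf : (2 : ℝ) ^ finrank ℚ L * (∏ w : InfinitePlace L, w P ^ w.mult) ≤
      (∏ v : InfinitePlace L, max (v x) 1 ^ v.mult) ^ 4 := by
    rw [← InfinitePlace.sum_mult_eq, ← Finset.prod_pow_eq_pow_sum, ← Finset.prod_mul_distrib,
      ← Finset.prod_pow]
    refine Finset.prod_le_prod (fun w _ => mul_nonneg (by positivity)
      (pow_nonneg (apply_nonneg w P) _)) fun w _ => ?_
    rw [← mul_pow, ← pow_mul, mul_comm w.mult 4, pow_mul]
    refine pow_le_pow_left₀ (mul_nonneg (by norm_num) (apply_nonneg w P)) ?_ _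
    have h3 := hreal w.embedding
    obtain ⟨r, hr⟩ : ∃ r : ℝ, w.embedding x = (r : ℂ) := ⟨(w.embedding x).re, by
      apply Complex.ext
      · simp
      · simp [h3]⟩
    have e1 : w x = |r| := by
      rw [← InfinitePlace.norm_embedding_eq w x, hr, Complex.norm_real, Real.norm_eq_abs]
    have e2 : w P = |r| * |r ^ 2 - 1| := by
      rw [← InfinitePlace.norm_embedding_eq w P, hP, map_mul, map_sub, map_pow, map_one, hr, norm_mul,
        ← Complex.ofReal_pow, ← Complex.ofReal_one, ← Complex.ofReal_sub, Complex.norm_real,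
        Complex.norm_real, Real.norm_eq_abs, Real.norm_eq_abs]
    rw [e1, e2]
    exact real_ineq r
  have hI0 : 0 ≤ ∏ w : InfinitePlace L, w P ^ w.mult :=
    Finset.prod_nonneg fun w _ => pow_nonneg (apply_nonneg w P) _
  have hF0 : 0 ≤ ∏ᶠ v : FinitePlace L, v P := finprod_nonneg fun v => apply_nonneg v P
  calc (2 : ℝ) ^ finrank ℚ L = 2 ^ finrank ℚ L * (∏ w : InfinitePlace L, w P ^ w.mult) *
        ∏ᶠ v : FinitePlace L, v P := by rw [mul_assoc, hpf, mul_one]
    _ ≤ _ := mul_le_mul hinf hfin hF0 (by positivity)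

/-- **totally real numbers** -/
theorem ht_real {x : Qb} (hx0 : x ≠ 0) (h1 : x ^ 2 ≠ 1) (hreal : ∀ φ : Qb →+* ℂ, (φ x).im = 0) :
    Real.log 2 / 4 ≤ ht x := by
  have hint : IsIntegral ℚ x := Pool.Agent.H58P.qb_isIntegral x
  let L := IntermediateField.adjoin ℚ {x}
  have hfd : FiniteDimensional ℚ L := IntermediateField.adjoin.finiteDimensional hint
  have hnf : NumberField L := { to_charZero := inferInstance, to_finiteDimensional := hfd }
  let g : L := IntermediateField.AdjoinSimple.gen ℚ x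
  have hg : algebraMap L Qb g = x := IntermediateField.AdjoinSimple.algebraMap_gen ℚ x
  have h2 := Pool.Agent.Helper259.AbsHt.absLogHeight_eq L (algebraMap L Qb) ![1, g]
  have e : (fun i => (algebraMap L Qb) ((![1, g] : Fin 2 → L) i)) = ![1, x] := by
    funext i
    fin_cases i
    · simp
    · simpa using hg
  rw [e] at h2
  have hg0 : g ≠ 0 := by
    intro h
    apply hx0
    rw [← hg, h, map_zero]
  have hg1 : g ^ 2 ≠ 1 := by
    intro h
    apply h1
    rw [← hg, ← map_pow, h, map_one]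
  have hgr : ∀ φ : L →+* ℂ, (φ g).im = 0 := by
    intro φ
    letI := φ.toAlgebra
    have halg : Algebra.IsAlgebraic L Qb := by
      have : Algebra.IsAlgebraic ℚ Qb := ⟨fun y => (Pool.Agent.H58P.qb_isIntegral y).isAlgebraic⟩
      exact Algebra.IsAlgebraic.tower_top (K := ℚ) L
    let ψ : Qb →ₐ[L] ℂ := IsAlgClosed.lift
    have h3 := hreal ψ.toRingHom
    have h4 : ψ.toRingHom x = φ g := by
      rw [← hg]
      exact ψ.commutes g
    rw [h4] at h3
    exact h3
  have h3 := tr_bound L g hg0 hg1 hgr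
  have h4 : ht x = Real.log (mulHeight₁ g) / finrank ℚ L := by
    rw [ht, h2, ← logHeight₁_eq_log_mulHeight₁, logHeight₁_eq_logHeight, logHeight_swap]
  rw [h4]
  have hn : (0 : ℝ) < finrank ℚ L := by exact_mod_cast (finrank_pos : 0 < finrank ℚ L)
  have h5 := Real.log_le_log (by positivity) h3
  rw [Real.log_pow, Real.log_pow] at h5
  rw [div_le_div_iff₀ (by norm_num) hn]
  push_cast at h5
  linarith

end Pool.Agent.V5helper74.RM
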