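import Pool.Agent.V5helper74.RM.Loc
import Pool.Agent.V5helper74.RM.Real
import Pool.Agent.W669.RK.GLF
import Pool.Agent.W237.RK.All

/-!
# The height of the numbers of bounded degree over the field of `p`-adic numbers
-/

set_option autoImplicit false

namespace Pool.Agent.V5helper74.RM

open Polynomial IntermediateField
open Pool.Agent.W237.RK
open Pool.Agent.H58P (Qb ht)

lemma max_one_pow' (a : ℝ) (ha : 0 ≤ a) (n : ℕ) : max 1 (a ^ n) = max 1 a ^ n := by
  rcases le_total a 1 with h | h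
  · rw [max_eq_left h, max_eq_left (pow_le_one₀ ha h), one_pow]
  · rw [max_eq_right h, max_eq_right (one_le_pow₀ h)]

/-- **numbers of bounded degree over the `p`-adic numbers** -/
theorem ht_loc (p : ℕ) [Fact p.Prime] (d : ℕ) : ∃ c : ℝ, 0 < c ∧ ∀ x : Qb, x ≠ 0 →
    (∀ φ : Qb →+* PadicAlgCl p, (minpoly ℚ_[p] (φ x)).natDegree ≤ d) → ¬ Tor x → c ≤ ht x := by
  classical
  have hp : p.Prime := Fact.out
  have hpR : (0 : ℝ) < p := by exact_mod_cast hp.pos
  have hp1 : (1 : ℝ) < p := by exact_mod_cast hp.one_lt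
  have hlogp : 0 < Real.log p := Real.log_pos hp1
  have hlog2 : 0 < Real.log 2 := Real.log_pos (by norm_num)
  obtain ⟨φ⟩ : Nonempty (Qb →+* PadicAlgCl p) := ⟨(IsAlgClosed.lift : Qb →ₐ[ℚ] PadicAlgCl p).toRingHom⟩
  set q := p ^ d.factorial with hq
  have hq1 : 1 < q := one_lt_pow₀ hp.one_lt (Nat.factorial_ne_zero d)
  obtain ⟨C, hC⟩ := Pool.Agent.W237.RK.pow p (p ^ d)
  obtain ⟨k, hk1, hk2⟩ : ∃ k : ℕ, 1 + Real.log 2 < ((k : ℝ) - C) * Real.log p ∧ C ≤ k := by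
    obtain ⟨j, hj⟩ := exists_nat_gt ((1 + Real.log 2) / Real.log p)
    refine ⟨j + C, ?_, by omega⟩
    rw [div_lt_iff₀ hlogp] at hj
    push_cast
    rw [add_sub_cancel_right]
    exact hj
  have hqR : (0 : ℝ) < q := by exact_mod_cast (by omega : 0 < q)
  refine ⟨1 / ((p : ℝ) ^ k * ((q : ℝ) + 1)), by positivity, ?_⟩
  intro x hx0 hloc hnt
  by_contra hcon
  push Not at hcon
  have hh0 : 0 < ht x := by
    refine lt_of_le_of_ne (Pool.Agent.H58R.ht_nonneg x) ?_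
    intro h
    exact hnt (Pool.Agent.W669.RK.tor_of_ht_zero x hx0 h.symm)
  have hbot : FiniteDimensional ℚ (⊥ : GF) := inferInstance
  obtain ⟨M, hMf, hMs, -, hsM, T, hT1, hT2⟩ :=
    Pool.Agent.W669.RK.exists_big ⊥ ⊥ hbot le_rfl {x}
  have hxM : x ∈ M := hsM x (Finset.mem_singleton_self x)
  set u : Fin 1 → M := fun _ => ⟨(x ^ q) ^ (p ^ k), pow_mem (pow_mem hxM _) _⟩ with hu
  set v : Fin 1 → M := fun _ => ⟨x ^ (p ^ k), pow_mem hxM _⟩ with hv
  have hhu : ∀ s, ht (u s : Qb) = (p : ℝ) ^ k * ((q : ℝ) * ht x) := by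
    intro s
    show ht ((x ^ q) ^ (p ^ k)) = _
    rw [Pool.Agent.H58B.ht_pow, Pool.Agent.H58B.ht_pow]
    push_cast
    ring
  have hhv : ∀ s, ht (v s : Qb) = (p : ℝ) ^ k * ht x := by
    intro s
    show ht (x ^ (p ^ k)) = _
    rw [Pool.Agent.H58B.ht_pow]
    push_cast
    ring
  have huv : ∀ s, u s ≠ v s := by
    intro s hs
    have h1 : ht (u s : Qb) = ht (v s : Qb) := by rw [hs]
    rw [hhu s, hhv s] at h1
    have h2 : (q : ℝ) * ht x = ht x := mul_left_cancel₀ (by positivity) h1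
    have h3 : (1 : ℝ) < (q : ℝ) := by exact_mod_cast hq1
    have h4 : ht x < (q : ℝ) * ht x := lt_mul_of_one_lt_left hh0 h3
    linarith
  set δ : ℝ := (p : ℝ) ^ C / (p : ℝ) ^ k with hδ
  have hδ0 : 0 < δ := by positivity
  have hδ1 : δ ≤ 1 := by
    rw [hδ, div_le_one (by positivity)]
    exact pow_le_pow_right₀ hp1.le hk2
  have hmain := Pool.Agent.W237.RK.hht p φ M hMf hMs 1 u v huv T δ hδ0 hδ1 (by
    intro τ hτ
    obtain ⟨t, -, ht2⟩ := hT2 τ hτ
    set ψ : Qb →+* PadicAlgCl p := φ.comp (t : Qb →+* Qb) with hψ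
    have hclose := close_all p d (ψ x) (hloc ψ)
    have hpow := (hC k).2 (ψ x ^ q) (ψ x) hclose
    rw [Fin.prod_univ_one, Fin.prod_univ_one]
    have e1 : φ ((τ (u 0) : M) : Qb) = (ψ x ^ q) ^ (p ^ k) := by
      rw [← ht2 (u 0)]
      show φ (t ((x ^ q) ^ (p ^ k))) = (φ (t x) ^ q) ^ (p ^ k)
      rw [map_pow, map_pow, map_pow, map_pow]
    have e2 : φ ((τ (v 0) : M) : Qb) = ψ x ^ (p ^ k) := by
      rw [← ht2 (v 0)]
      show φ (t (x ^ (p ^ k))) = φ (t x) ^ (p ^ k)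
      rw [map_pow, map_pow]
    rw [map_sub, e1, e2, norm_pow (ψ x ^ q), norm_pow (ψ x) (p ^ k),
      max_one_pow' _ (norm_nonneg _), max_one_pow' _ (norm_nonneg _), ← mul_pow, hδ,
      div_mul_eq_mul_div, le_div_iff₀ (by positivity)]
    exact hpow)
  have hlogδ : -Real.log δ = ((k : ℝ) - C) * Real.log p := by
    rw [hδ, Real.log_div (by positivity) (by positivity), Real.log_pow, Real.log_pow]
    ring
  have hbot1 : Module.finrank ℚ (⊥ : GF) = 1 := IntermediateField.finrank_bot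
  rw [hbot1, one_mul] at hT1
  rw [hlogδ, hT1, Fin.sum_univ_one, hhu 0, hhv 0] at hmain
  have hTpos : (0 : ℝ) < T.card := by
    have h1 : 0 < Module.finrank ℚ M := Module.finrank_pos
    rw [hT1] at h1
    exact_mod_cast h1
  have h5 := le_of_mul_le_mul_left hmain hTpos
  have h7 : (p : ℝ) ^ k * ((q : ℝ) * ht x) + (p : ℝ) ^ k * ht x ≤ 1 := by
    calc (p : ℝ) ^ k * ((q : ℝ) * ht x) + (p : ℝ) ^ k * ht x
        = (p : ℝ) ^ k * ((q : ℝ) + 1) * ht x := by ring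
      _ ≤ (p : ℝ) ^ k * ((q : ℝ) + 1) * (1 / ((p : ℝ) ^ k * ((q : ℝ) + 1))) :=
          mul_le_mul_of_nonneg_left hcon.le (by positivity)
      _ = 1 := by rw [mul_one_div, div_self (by positivity)]
  linarith

end Pool.Agent.V5helper74.RM
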