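import Mathlib

/-!
# Numbers of bounded degree over the field of `p`-adic numbers
-/

set_option autoImplicit false

namespace Pool.Agent.V5helper74.RM

open Polynomial

/-- the polynomial part -/
theorem dvd_frob (p : ℕ) [Fact p.Prime] (d : ℕ) (P : (ZMod p)[X]) (hP : P.Monic) (hd : P.natDegree ≤ d) :
    P ∣ (X ^ (p ^ d.factorial) - X) ^ (p ^ d) := by
  set K := AlgebraicClosure (ZMod p) with hK
  rw [← map_dvd_map' (algebraMap (ZMod p) K)]
  have hmon : (P.map (algebraMap (ZMod p) K)).Monic := hP.map _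
  have hsp : (P.map (algebraMap (ZMod p) K)).Splits := IsAlgClosed.splits _
  have hprod := hsp.eq_prod_roots_of_monic hmon
  set R := (P.map (algebraMap (ZMod p) K)).roots with hR
  have hcard : Multiset.card R ≤ d := by
    refine (card_roots' _).trans ?_
    rw [hP.natDegree_map]
    exact hd
  have hroot : ∀ a ∈ R, X - C a ∣ (X ^ (p ^ d.factorial) - X : K[X]) := by
    intro a ha
    rw [dvd_iff_isRoot]
    have hPa : aeval a P = 0 := by
      have h1 := (mem_roots'.1 ha).2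
      rwa [IsRoot, eval_map_algebraMap] at h1
    have hint : IsIntegral (ZMod p) a := ⟨P, hP, by rwa [aeval_def] at hPa⟩
    have hdeg : (minpoly (ZMod p) a).natDegree ≤ d :=
      (natDegree_le_of_dvd (minpoly.dvd _ _ hPa) hP.ne_zero).trans hd
    have hfd : FiniteDimensional (ZMod p) (IntermediateField.adjoin (ZMod p) {a}) :=
      IntermediateField.adjoin.finiteDimensional hint
    have hfin : Finite (IntermediateField.adjoin (ZMod p) {a}) := Module.finite_of_finite (ZMod p)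
    have : Fintype (IntermediateField.adjoin (ZMod p) {a}) := Fintype.ofFinite _
    set m := (minpoly (ZMod p) a).natDegree with hm
    have hm0 : 0 < m := minpoly.natDegree_pos hint
    have hc : Fintype.card (IntermediateField.adjoin (ZMod p) {a}) = p ^ m := by
      rw [Module.card_eq_pow_finrank (K := ZMod p), ZMod.card, IntermediateField.adjoin.finrank hint]
    obtain ⟨t, ht⟩ := Nat.dvd_factorial hm0 hdeg
    have h2 := FiniteField.pow_card_pow t (IntermediateField.AdjoinSimple.gen (ZMod p) a)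
    rw [hc, ← pow_mul, ← ht] at h2
    have h3 := congrArg (algebraMap (IntermediateField.adjoin (ZMod p) {a}) K) h2
    rw [map_pow, IntermediateField.AdjoinSimple.algebraMap_gen] at h3
    rw [IsRoot, eval_sub, eval_pow, eval_X, h3, sub_self]
  have key : ∀ S : Multiset K, (∀ a ∈ S, X - C a ∣ (X ^ (p ^ d.factorial) - X : K[X])) →
      (S.map fun a => X - C a).prod ∣ (X ^ (p ^ d.factorial) - X : K[X]) ^ Multiset.card S := by
    intro S
    induction S using Multiset.induction_on with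
    | empty => intro _; simp
    | cons a S ih =>
      intro h
      rw [Multiset.map_cons, Multiset.prod_cons, Multiset.card_cons, pow_succ']
      exact mul_dvd_mul (h a (Multiset.mem_cons_self a S))
        (ih fun b hb => h b (Multiset.mem_cons_of_mem hb))
  rw [hprod]
  have h1 := key R hroot
  have h2 : (X ^ (p ^ d.factorial) - X : K[X]) ^ Multiset.card R ∣
      (X ^ (p ^ d.factorial) - X : K[X]) ^ (p ^ d) := by
    apply pow_dvd_pow
    have hp : 1 < p := (Fact.out : p.Prime).one_lt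
    exact hcard.trans (Nat.lt_pow_self hp).le
  simpa using h1.trans h2

/-- **the closeness of `y ^ q` and `y`** -/
theorem close_int (p : ℕ) [Fact p.Prime] (d : ℕ) (y : PadicAlgCl p) (hy : ‖y‖ ≤ 1)
    (hd : (minpoly ℚ_[p] y).natDegree ≤ d) : ‖y ^ (p ^ d.factorial) - y‖ ^ (p ^ d) ≤ (p : ℝ)⁻¹ := by
  have halg : IsIntegral ℚ_[p] y := (Algebra.IsAlgebraic.isAlgebraic y).isIntegral
  set f := minpoly ℚ_[p] y with hf
  have hmon : f.Monic := minpoly.monic halg
  have hcoef : ∀ n, ‖f.coeff n‖ ≤ 1 := by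
    have h1 : spectralValue f ≤ 1 := by
      have h2 : spectralNorm ℚ_[p] (PadicAlgCl p) y = ‖y‖ := PadicAlgCl.spectralNorm_eq p y
      have h3 : spectralNorm ℚ_[p] (PadicAlgCl p) y = spectralValue f := rfl
      rw [← h3, h2]
      exact hy
    exact (spectralValue_le_one_iff hmon).1 h1
  have hlift : f ∈ lifts (algebraMap ℤ_[p] ℚ_[p]) := by
    rw [lifts_iff_coeff_lifts]
    intro n
    exact ⟨⟨f.coeff n, hcoef n⟩, rfl⟩
  obtain ⟨g, hg, hgd, hgm⟩ := lifts_and_degree_eq_and_monic hlift hmon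
  have hgd' : g.natDegree ≤ d := by
    rw [natDegree_eq_of_degree_eq hgd]
    exact hd
  have hgb : (g.map (PadicInt.toZMod (p := p))).natDegree ≤ d := (hgm.natDegree_map _).le.trans hgd'
  obtain ⟨r, hr⟩ := dvd_frob p d (g.map (PadicInt.toZMod (p := p))) (hgm.map _) hgb
  obtain ⟨r', rfl⟩ := map_surjective (PadicInt.toZMod (p := p))
    (ZMod.ringHom_surjective (PadicInt.toZMod (p := p))) r
  set h : ℤ_[p][X] := (X ^ (p ^ d.factorial) - X) ^ (p ^ d) - g * r' with hh
  have h0 : h.map (PadicInt.toZMod (p := p)) = 0 := by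
    rw [hh, Polynomial.map_sub, Polynomial.map_pow, Polynomial.map_sub, Polynomial.map_pow,
      Polynomial.map_X, Polynomial.map_mul, hr, sub_self]
  have hc : ∀ n, ‖h.coeff n‖ ≤ (p : ℝ)⁻¹ := by
    intro n
    have h1 : PadicInt.toZMod (h.coeff n) = 0 := by
      rw [← coeff_map, h0, coeff_zero]
    have h2 : h.coeff n ∈ RingHom.ker (PadicInt.toZMod (p := p)) := h1
    rw [PadicInt.ker_toZMod, PadicInt.maximalIdeal_eq_span_p] at h2
    have h3 := (PadicInt.norm_le_pow_iff_mem_span_pow (h.coeff n) 1).2 (by rwa [pow_one])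
    simpa using h3
  have hev : aeval y h = (y ^ (p ^ d.factorial) - y) ^ (p ^ d) := by
    have hgy : aeval y g = 0 := by
      have h1 : aeval y (g.map (algebraMap ℤ_[p] ℚ_[p])) = 0 := by rw [hg]; exact minpoly.aeval _ _
      rwa [aeval_map_algebraMap] at h1
    rw [hh, map_sub, map_mul, hgy, zero_mul, sub_zero, map_pow, map_sub, map_pow, aeval_X]
  rw [← norm_pow, ← hev, aeval_eq_sum_range]
  refine IsUltrametricDist.norm_sum_le_of_forall_le_of_nonneg (by positivity) ?_
  intro i _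
  have h1 : ‖h.coeff i • y ^ i‖ = ‖h.coeff i‖ * ‖y‖ ^ i := by
    have h2 : h.coeff i • y ^ i = algebraMap ℚ_[p] (PadicAlgCl p) (h.coeff i : ℚ_[p]) * y ^ i := by
      rw [Algebra.smul_def]
      rfl
    rw [h2, norm_mul, norm_pow]
    congr 1
    exact PadicAlgCl.norm_extends p _
  rw [h1]
  calc ‖h.coeff i‖ * ‖y‖ ^ i ≤ (p : ℝ)⁻¹ * 1 :=
        mul_le_mul (hc i) (pow_le_one₀ (norm_nonneg _) hy) (by positivity) (by positivity)
    _ = (p : ℝ)⁻¹ := mul_one _

lemma norm_sub_left {p : ℕ} [Fact p.Prime] {a b : PadicAlgCl p} (h : ‖b‖ < ‖a‖) : ‖a - b‖ = ‖a‖ := by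
  rw [sub_eq_add_neg, IsUltrametricDist.norm_add_eq_max_of_norm_ne_norm (by rw [norm_neg]; exact h.ne'),
    norm_neg, max_eq_left h.le]

/-- the general case -/
theorem close_all (p : ℕ) [Fact p.Prime] (d : ℕ) (y : PadicAlgCl p)
    (hd : (minpoly ℚ_[p] y).natDegree ≤ d) : ‖y ^ (p ^ d.factorial) - y‖ ^ (p ^ d) ≤
      (p : ℝ)⁻¹ * (max 1 ‖y ^ (p ^ d.factorial)‖ * max 1 ‖y‖) ^ (p ^ d) := by
  have hp : p.Prime := Fact.out
  have hp1 : (1 : ℝ) < p := by exact_mod_cast hp.one_lt
  rcases le_or_gt ‖y‖ 1 with hy | hy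
  · refine (close_int p d y hy hd).trans ?_
    have h1 : (1 : ℝ) ≤ (max 1 ‖y ^ (p ^ d.factorial)‖ * max 1 ‖y‖) ^ (p ^ d) := by
      apply one_le_pow₀
      exact one_le_mul_of_one_le_of_one_le (le_max_left _ _) (le_max_left _ _)
    exact le_mul_of_one_le_right (by positivity) h1
  · have hq : 1 < p ^ d.factorial := one_lt_pow₀ hp.one_lt (Nat.factorial_ne_zero d)
    have hy0 : y ≠ 0 := by
      rintro rfl
      rw [norm_zero] at hy
      linarith
    -- the inverse
    have hz : ‖y⁻¹‖ < 1 := by rw [norm_inv]; exact inv_lt_one_of_one_lt₀ hy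
    have hdz : (minpoly ℚ_[p] y⁻¹).natDegree ≤ d := by
      have halg : IsIntegral ℚ_[p] y := (Algebra.IsAlgebraic.isAlgebraic y).isIntegral
      have hfd : FiniteDimensional ℚ_[p] (IntermediateField.adjoin ℚ_[p] {y}) :=
        IntermediateField.adjoin.finiteDimensional halg
      have hmem : y⁻¹ ∈ IntermediateField.adjoin ℚ_[p] {y} :=
        inv_mem (IntermediateField.mem_adjoin_simple_self _ _)
      have h2 := minpoly.natDegree_le (A := ℚ_[p])
        (⟨y⁻¹, hmem⟩ : IntermediateField.adjoin ℚ_[p] {y})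
      rw [IntermediateField.adjoin.finrank halg] at h2
      have h3 : minpoly ℚ_[p] (⟨y⁻¹, hmem⟩ : IntermediateField.adjoin ℚ_[p] {y}) =
          minpoly ℚ_[p] y⁻¹ :=
        (minpoly.algebraMap_eq (algebraMap (IntermediateField.adjoin ℚ_[p] {y})
          (PadicAlgCl p)).injective _).symm
      rw [h3] at h2
      exact h2.trans hd
    have h1 := close_int p d y⁻¹ hz.le hdz
    have hz0 : 0 < ‖y⁻¹‖ := norm_pos_iff.2 (inv_ne_zero hy0)
    have h2 : ‖(y⁻¹) ^ (p ^ d.factorial) - y⁻¹‖ = ‖y⁻¹‖ := by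
      rw [← norm_neg, neg_sub]
      apply norm_sub_left
      rw [norm_pow]
      calc ‖y⁻¹‖ ^ (p ^ d.factorial) ≤ ‖y⁻¹‖ ^ 2 := pow_le_pow_of_le_one hz0.le hz.le hq
        _ < ‖y⁻¹‖ := by nlinarith
    rw [h2, norm_inv, inv_pow] at h1
    have hyB : (0 : ℝ) < ‖y‖ ^ (p ^ d) := by positivity
    have h3 : (p : ℝ) ≤ ‖y‖ ^ (p ^ d) := (inv_le_inv₀ hyB (by positivity)).1 h1
    have h4 : ‖y ^ (p ^ d.factorial) - y‖ = ‖y‖ ^ (p ^ d.factorial) := by
      rw [← norm_pow]
      apply norm_sub_left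
      rw [norm_pow]
      exact lt_self_pow₀ hy hq
    have h5 : max 1 ‖y‖ = ‖y‖ := max_eq_right hy.le
    have h6 : max 1 ‖y ^ (p ^ d.factorial)‖ = ‖y‖ ^ (p ^ d.factorial) := by
      rw [norm_pow]
      exact max_eq_right (one_le_pow₀ hy.le)
    rw [h4, h5, h6, mul_pow]
    have h7 : (1 : ℝ) ≤ (p : ℝ)⁻¹ * ‖y‖ ^ (p ^ d) := by
      rw [inv_mul_eq_div, le_div_iff₀ (by positivity), one_mul]
      exact h3
    calc (‖y‖ ^ (p ^ d.factorial)) ^ (p ^ d) ≤ ((p : ℝ)⁻¹ * ‖y‖ ^ (p ^ d)) *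
          (‖y‖ ^ (p ^ d.factorial)) ^ (p ^ d) := le_mul_of_one_le_left (by positivity) h7
      _ = _ := by ring

end Pool.Agent.V5helper74.RM
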