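import Pool.Agent.V5helper40.RRed.Smooth
import Pool.Agent.V5helper40.RRed.Quo

/-!
# Numbers whose iterated quotients of conjugates lie in a set with small points in a division group
-/

set_option autoImplicit false

namespace Pool.Agent.V5helper74.RM

open Polynomial IntermediateField
open Pool.Agent.W237.RK
open Pool.Agent.H58P (Qb ht)
open Pool.Agent.H58R (ht_nonneg ht_mul_le ht_inv ht_zpow ht_prod_le)
open Pool.Agent.TH53.RP
open Pool.Agent.TH53.BL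
open Pool.Agent.V5helper40.RRed

/-- a power of `x` lies in `F` -/
def Rad (F : GF) (x : Qb) : Prop := ∃ n : ℕ, 0 < n ∧ x ^ n ∈ F

/-- **If all the quotients `σ x / x` are radicals over `F`, so is `x`.** -/
theorem rad_of_quot (F : GF) {x : Qb} (hx0 : x ≠ 0) (h : ∀ σ : Aut, Fix F σ → Rad F (σ x / x)) :
    Rad F x := by
  classical
  have hfin := orb_finite F x
  have hch : ∀ y : Qb, ∃ n : ℕ, 0 < n ∧ (y ∈ orb F x → (y / x) ^ n ∈ F) := by
    intro y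
    by_cases hy : y ∈ orb F x
    · obtain ⟨σ, hσ, rfl⟩ := hy
      obtain ⟨n, hn, h1⟩ := h σ hσ
      exact ⟨n, hn, fun _ => h1⟩
    · exact ⟨1, one_pos, fun h => absurd h hy⟩
  choose n hn hn2 using hch
  set S := hfin.toFinset with hS
  have hSpos : 0 < S.card := by
    refine Finset.card_pos.2 ⟨x, ?_⟩
    rw [hS, Set.Finite.mem_toFinset]
    exact ⟨1, fix_one F, rfl⟩
  set R := ∏ y ∈ S, n y with hR
  have hR0 : 0 < R := Finset.prod_pos fun y _ => hn y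
  have hq : ∀ y ∈ S, (y / x) ^ R ∈ F := by
    intro y hy
    obtain ⟨m, hm⟩ := Finset.dvd_prod_of_mem n hy
    rw [hR, hm, pow_mul]
    exact pow_mem (hn2 y ((Set.Finite.mem_toFinset _).1 hy)) m
  have h1 : (N F x / x ^ S.card) ^ R ∈ F := by
    have h2 : N F x / x ^ S.card = ∏ y ∈ S, (y / x) := by
      rw [Finset.prod_div_distrib, Finset.prod_const]
      rfl
    rw [h2, ← Finset.prod_pow]
    exact prod_mem hq
  have hN : N F x ^ R ∈ F := pow_mem (N_mem F x) R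
  have hN0 : N F x ^ R ≠ 0 := pow_ne_zero _ (N_ne_zero F hx0)
  refine ⟨S.card * R, Nat.mul_pos hSpos hR0, ?_⟩
  have h3 : x ^ (S.card * R) = N F x ^ R / (N F x / x ^ S.card) ^ R := by
    rw [div_pow, div_div_cancel₀ hN0, pow_mul]
  rw [h3]
  exact div_mem hN h1

/-- the numbers all whose `k`-fold quotients of conjugates over `F` lie in `X`, up to roots of unity -/
def QC (F : GF) (X : Set Qb) : ℕ → Set Qb
  | 0 => {x | x ≠ 0 ∧ ∃ ζ : Qb, Tor ζ ∧ ∃ y ∈ X, x = ζ * y}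
  | k + 1 => {x | x ≠ 0 ∧ ∀ σ : Aut, Fix F σ → σ x / x ∈ QC F X k}

lemma qc_ne_zero {F : GF} {X : Set Qb} : ∀ {k : ℕ} {x : Qb}, x ∈ QC F X k → x ≠ 0
  | 0, _, h => h.1
  | _ + 1, _, h => h.1

/-- the dichotomy -/
theorem qc_dichotomy {F : GF} {X : Set Qb} {Δ : Subgroup Qbˣ} (hΔ : ∀ g ∈ Δ, (g : Qb) ∈ F) {c : ℝ}
    (hX : ∀ x ∈ X, x ≠ 0 → ¬ DivG Δ x → c ≤ ht x) :
    ∀ (k : ℕ) (x : Qb), x ∈ QC F X k → Rad F x ∨ c / 2 ^ k ≤ ht x := by
  intro k
  induction k with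
  | zero =>
    rintro x ⟨hx0, ζ, hζ, y, hy, rfl⟩
    have hy0 : y ≠ 0 := right_ne_zero_of_mul hx0
    by_cases hD : DivG Δ y
    · left
      obtain ⟨n, hn, g, hg, h1⟩ := hD
      obtain ⟨m, hm, h2⟩ := hζ
      refine ⟨m * n, Nat.mul_pos hm hn, ?_⟩
      rw [mul_pow, pow_mul ζ, h2, one_pow, one_mul, mul_comm m n, pow_mul, h1]
      exact pow_mem (hΔ g hg) m
    · right
      rw [pow_zero, div_one, ht_tor_mul hζ]
      exact hX y hy hy0 hD
  | succ k ih =>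
    intro x hx
    obtain ⟨hx0, hx⟩ := hx
    by_cases hall : ∀ σ : Aut, Fix F σ → Rad F (σ x / x)
    · exact Or.inl (rad_of_quot F hx0 hall)
    · right
      push Not at hall
      obtain ⟨σ, hσ, h1⟩ := hall
      have h2 : c / 2 ^ k ≤ ht (σ x / x) := (ih _ (hx σ hσ)).resolve_left h1
      have h3 : ht (σ x / x) ≤ 2 * ht x := by
        rw [div_eq_mul_inv]
        have h6 := ht_mul_le (σ x) x⁻¹
        rw [ht_inv _ hx0, Pool.Agent.H58B.ht_conj] at h6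
        linarith
      have h4 : c / 2 ^ (k + 1) = c / 2 ^ k / 2 := by rw [pow_succ, div_div]
      rw [h4]
      linarith

/-- the height of a relative norm, with the degree over the division field -/
lemma ht_norm_le (Γ : Subgroup Qbˣ) {ξ : Qb} {F' : GF} (h1 : divF Γ ≤ F')
    (h2 : F' ≤ divF Γ ⊔ adjoin ℚ {ξ}) :
    ht ((minpoly F' ξ).coeff 0 : Qb) ≤ ((minpoly (divF Γ) ξ).natDegree : ℝ) * ht ξ := by
  set η := ((minpoly F' ξ).coeff 0 : Qb) with hη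
  set s : Qb := (-1) ^ (orb_finite F' ξ).toFinset.card with hs
  have hsη : η = s * N F' ξ := coeff_zero_eq F' ξ
  have hstor : Tor s := tor_neg_one_pow _
  have hht : ht η = ht (N F' ξ) := by rw [hsη, ht_tor_mul hstor]
  rw [hht, ← orb_ncard]
  have hdeg := degree_mul_le h1 h2
  have hpos := orb_ncard_pos (divF Γ) (N F' ξ)
  refine (ht_N_le F' ξ).trans (mul_le_mul_of_nonneg_right ?_ (ht_nonneg ξ))
  have h3 : (orb F' ξ).ncard ≤ (orb (divF Γ) ξ).ncard := by nlinarith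
  exact_mod_cast h3

/-- **the main theorem** -/
theorem main (Γ Γ₁ : Subgroup Qbˣ) (hΓfg : Γ.FG) (hΓ₁ : Γ₁.FG) (K : GF)
    (hKfd : FiniteDimensional ℚ K) (P : Finset ℕ) (hP : ∀ p ∈ P, p.Prime) (X : Set Qb)
    (hX : ∃ c : ℝ, 0 < c ∧ ∀ x ∈ X, x ≠ 0 → ¬ DivG Γ₁ x → c ≤ ht x) : ∃ A : ℕ, 0 < A ∧
    ∀ (k D : ℕ) (E : IntermediateField (fullField K Γ₁ P) Qb),
      FiniteDimensional (fullField K Γ₁ P) E → Module.finrank (fullField K Γ₁ P) E ≤ D →
      ∀ η : Qb, η ∈ QC (E.restrictScalars ℚ) X k → ¬ DivG Γ η →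
      ∀ ξ : Qb, (ξ = η ∨ ∃ F' : GF, (divF Γ ≤ F' ∧ F' ≤ divF Γ ⊔ adjoin ℚ {ξ}) ∧
        ((minpoly F' ξ).coeff 0 : Qb) = η) →
      1 / ((A : ℝ) * (2 ^ k * (D : ℝ)) ^ A) ≤ ((minpoly (divF Γ) ξ).natDegree : ℝ) * ht ξ := by
  obtain ⟨c, hc, hX⟩ := hX
  obtain ⟨A₁, hA₁, hmain₁⟩ := main5 Γ Γ₁ hΓfg hΓ₁ K hKfd P hP
  obtain ⟨A₂, hA₂, hmain₂⟩ := norm_case' Γ Γ₁ hΓfg hΓ₁ K hKfd P hP
  obtain ⟨m, hm⟩ := exists_nat_gt c⁻¹
  have hm0 : 0 < m := by
    have h1 : (0 : ℝ) < m := (inv_pos.2 hc).trans hm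
    exact_mod_cast h1
  set A₃ := max A₁ A₂ with hA₃
  have hA₃0 : 0 < A₃ := lt_of_lt_of_le hA₁ (le_max_left _ _)
  set B := B2 (1 + 1) with hB
  have hB0 : 0 < B := B2_pos _
  -- the constant
  refine ⟨m + A₃ * B ^ A₃, by positivity, ?_⟩
  intro k D E hE hD η hη hnd ξ hξ
  have hD0 : 0 < D := lt_of_lt_of_le Module.finrank_pos hD
  have hη0 : η ≠ 0 := qc_ne_zero hη
  set A := m + A₃ * B ^ A₃ with hA
  have hDR : (1 : ℝ) ≤ (D : ℝ) := by exact_mod_cast hD0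
  have h2k : (1 : ℝ) ≤ (2 : ℝ) ^ k := one_le_pow₀ (by norm_num)
  have hBR : (1 : ℝ) ≤ (B : ℝ) := by exact_mod_cast hB0
  have hA0 : 0 < A := by positivity
  have hmA : m ≤ A := Nat.le_add_right _ _
  have hA₃A : A₃ ≤ A := by
    have h1 : 1 ≤ B ^ A₃ := Nat.one_le_iff_ne_zero.2 (pow_ne_zero _ hB0.ne')
    nlinarith
  have hΔ : ∀ g ∈ Γ₁, (g : Qb) ∈ E.restrictScalars ℚ := by
    intro g hg
    have h1 : (g : Qb) ∈ fullField K Γ₁ P :=
      (le_sup_right : _ ≤ fullField K Γ₁ P) (subset_adjoin _ _ (Or.inr ⟨1, ⟨one_pos, fun q hq hq1 =>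
        absurd (Nat.le_of_dvd one_pos hq1) (by have := hq.two_le; omega)⟩, g, hg, pow_one _⟩))
    exact E.algebraMap_mem ⟨_, h1⟩
  rcases qc_dichotomy hΔ hX k η hη with hrad | hbig
  · -- radicals
    obtain ⟨n, hn, hrad⟩ := hrad
    have hr : ∀ j : Fin 1, ∃ m : ℕ, 0 < m ∧ (fun _ : Fin 1 => η) j ^ m ∈ E := fun _ => ⟨n, hn, hrad⟩
    have hr' : ∀ j : Fin 1, ∃ m : ℕ, 0 < m ∧ (fun _ : Fin 1 => (1 : Qb)) j ^ m ∈ E := fun _ =>
      ⟨1, one_pos, by rw [one_pow]; exact one_mem E⟩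
    have key : lowc A₃ (D * B) ≤ ((minpoly (divF Γ) ξ).natDegree : ℝ) * ht ξ := by
      have hDB : 0 < D * B := Nat.mul_pos hD0 hB0
      rcases hξ with rfl | ⟨F', ⟨h1, h2⟩, h3⟩
      · refine (lowc_anti hA₁ hDB (le_max_left _ _)).trans ?_
        rw [← orb_ncard]
        exact hmain₁ 1 1 D E hE hD (fun _ => ξ) (fun _ => 1) hr hr' ξ (by simp) (by simp) hη0 hnd
      · refine (lowc_anti hA₂ hDB (le_max_right _ _)).trans ?_
        have hξ0 : ξ ≠ 0 := by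
          rintro rfl
          apply hη0
          rw [← h3, minpoly.zero]
          simp
        exact hmain₂ 1 1 D E hE hD (fun _ => η) (fun _ => 1) hr hr' (by simp) ξ hξ0 F' h1 h2
          (by rw [h3]; simp) (by rw [h3]; exact hnd)
    refine le_trans ?_ key
    rw [lowc, ← one_div]
    apply one_div_le_one_div_of_le
    · have : (0 : ℝ) < A₃ := by exact_mod_cast hA₃0
      have h4 : (0 : ℝ) < ((D * B : ℕ) : ℝ) := by exact_mod_cast Nat.mul_pos hD0 hB0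
      positivity
    · push_cast
      calc (A₃ : ℝ) * ((D : ℝ) * (B : ℝ)) ^ A₃ = ((A₃ : ℝ) * (B : ℝ) ^ A₃) * (D : ℝ) ^ A₃ := by
            rw [mul_pow]; ring
        _ ≤ (A : ℝ) * (2 ^ k * (D : ℝ)) ^ A := by
            have h5 : (A₃ : ℝ) * (B : ℝ) ^ A₃ ≤ (A : ℝ) := by
              rw [hA]; push_cast
              have : (0 : ℝ) ≤ m := Nat.cast_nonneg _
              linarith
            have h6 : (D : ℝ) ^ A₃ ≤ (2 ^ k * (D : ℝ)) ^ A := by
              calc (D : ℝ) ^ A₃ ≤ (D : ℝ) ^ A := pow_le_pow_right₀ hDR hA₃A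
                _ ≤ (2 ^ k * (D : ℝ)) ^ A := by
                  apply pow_le_pow_left₀ (by positivity)
                  nlinarith
            exact mul_le_mul h5 h6 (by positivity) (by positivity)
  · -- large height
    have h1 : ht η ≤ ((minpoly (divF Γ) ξ).natDegree : ℝ) * ht ξ := by
      rcases hξ with rfl | ⟨F', ⟨h1, h2⟩, h3⟩
      · have h4 : (1 : ℝ) ≤ ((minpoly (divF Γ) ξ).natDegree : ℝ) := by
          rw [← orb_ncard]
          exact_mod_cast orb_ncard_pos _ _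
        have h5 := ht_nonneg ξ
        nlinarith
      · rw [← h3]
        exact ht_norm_le Γ h1 h2
    refine le_trans ?_ (hbig.trans h1)
    have h2 : (1 : ℝ) / ((A : ℝ) * (2 ^ k * (D : ℝ)) ^ A) ≤ 1 / ((m : ℝ) * 2 ^ k) := by
      apply one_div_le_one_div_of_le
      · have : (0 : ℝ) < m := by exact_mod_cast hm0
        positivity
      · have h3 : (m : ℝ) ≤ (A : ℝ) := by exact_mod_cast hmA
        have h4 : (2 : ℝ) ^ k ≤ (2 ^ k * (D : ℝ)) ^ A := by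
          calc (2 : ℝ) ^ k ≤ (2 ^ k * (D : ℝ)) ^ 1 := by rw [pow_one]; nlinarith
            _ ≤ (2 ^ k * (D : ℝ)) ^ A := pow_le_pow_right₀ (by nlinarith) hA0
        exact mul_le_mul h3 h4 (by positivity) (by positivity)
    refine h2.trans ?_
    have hm1 : (0 : ℝ) < m := by exact_mod_cast hm0
    rw [div_le_div_iff₀ (by positivity) (by positivity)]
    have h5 : 1 < c * m := by
      have := (inv_lt_iff_one_lt_mul₀ hc).1 hm
      linarith [mul_comm c (m : ℝ)]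
    nlinarith

end Pool.Agent.V5helper74.RM
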